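import Pool.Agent.H200W.Stm3

/-! # Project WR: job AREA -/

set_option autoImplicit false

namespace Pool.Agent.Q274.WR

open Pool.Agent.H200W

theorem L1 {X H : ℝ} (hH : 0 < H) : (max 0 (X - H)) ^ 2 - (max 0 X) ^ 2 =
    -(max 0 X + max 0 (X - H)) * H + max 0 (min H X) * (H - max 0 (min H X)) := by
  rcases le_total X 0 with h1 | h1
  · rw [min_eq_right (by linarith : X ≤ H), max_eq_left h1, max_eq_left (by linarith : X - H ≤ 0)]
    ring
  · rcases le_total X H with h2 | h2
    · rw [min_eq_right h2, max_eq_right h1, max_eq_left (by linarith : X - H ≤ 0)]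
      ring
    · rw [min_eq_left h2, max_eq_right h1, max_eq_right (by linarith : 0 ≤ X - H),
        max_eq_right hH.le]
      ring

theorem L2 {Z H q : ℝ} (hH : 0 < H) : 2 * q * H - (max 0 (H - Z)) ^ 2 + (max 0 (-Z)) ^ 2 =
    (min q (q + Z) + min q (q + (Z - H))) * H + max 0 (min H Z) * (H - max 0 (min H Z)) := by
  rcases le_total Z 0 with h1 | h1
  · rw [min_eq_right (by linarith : Z ≤ H), max_eq_left h1, max_eq_right (by linarith : 0 ≤ -Z),
      max_eq_right (by linarith : 0 ≤ H - Z), min_eq_right (by linarith : q + Z ≤ q),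
      min_eq_right (by linarith : q + (Z - H) ≤ q)]
    ring
  · rcases le_total Z H with h2 | h2
    · rw [min_eq_right h2, max_eq_right h1, max_eq_left (by linarith : -Z ≤ 0),
        max_eq_right (by linarith : 0 ≤ H - Z), min_eq_left (by linarith : q ≤ q + Z),
        min_eq_right (by linarith : q + (Z - H) ≤ q)]
      ring
    · rw [min_eq_left h2, max_eq_right hH.le, max_eq_left (by linarith : -Z ≤ 0),
        max_eq_left (by linarith : H - Z ≤ 0), min_eq_left (by linarith : q ≤ q + Z),
        min_eq_left (by linarith : q ≤ q + (Z - H))]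
      ring

theorem area : S_Area := by
  intro M q d y0 H hH
  have h1 := L1 (X := M - y0) hH
  have h2 := L2 (Z := d - q - y0) (q := q) hH
  have e1 : M - (y0 + H) = M - y0 - H := by ring
  have e2 : y0 + H - (d - q) = H - (d - q - y0) := by ring
  have e3 : y0 - (d - q) = -(d - q - y0) := by ring
  have e4 : d - y0 = q + (d - q - y0) := by ring
  have e5 : d - (y0 + H) = q + (d - q - y0 - H) := by ring
  simp only [ga, rl]
  rw [e1, e2, e3, e4, e5]
  linarith

theorem B1 {X H t : ℝ} (hH : 0 < H) (h0 : 0 ≤ t) (ht : t ≤ H) :
    max 0 X + (max 0 (X - H) - max 0 X) / H * t = max 0 (X - t) +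
    min ((1 - max 0 (min H X) / H) * t) (max 0 (min H X) / H * (H - t)) := by
  rcases le_total X 0 with h1 | h1
  · rw [min_eq_right (by linarith : X ≤ H), max_eq_left h1, max_eq_left (by linarith : X - H ≤ 0),
      max_eq_left (by linarith : X - t ≤ 0)]
    simp [h0]
  · rcases le_total X H with h2 | h2
    · rw [min_eq_right h2, max_eq_right h1, max_eq_left (by linarith : X - H ≤ 0)]
      have e1 : (1 - X / H) * t = t - X * t / H := by field_simp
      have e2 : X / H * (H - t) = X - X * t / H := by field_simp
      have e3 : (0 - X) / H * t = - (X * t / H) := by field_simp; ring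
      rw [e1, e2, e3]
      rcases le_total t X with h3 | h3
      · rw [max_eq_right (by linarith : 0 ≤ X - t), min_eq_left (by linarith)]
        ring
      · rw [max_eq_left (by linarith : X - t ≤ 0), min_eq_right (by linarith)]
        ring
    · rw [min_eq_left h2, max_eq_right h1, max_eq_right (by linarith : 0 ≤ X - H),
        max_eq_right hH.le, max_eq_right (by linarith : 0 ≤ X - t)]
      have e1 : (1 - H / H) * t = 0 := by field_simp; ring
      have e2 : H / H * (H - t) = H - t := by field_simp
      have e3 : (X - H - X) / H * t = - t := by field_simp; ring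
      rw [e1, e2, e3, min_eq_left (by linarith)]
      ring

theorem B2 {Z H t q : ℝ} (hH : 0 < H) (h0 : 0 ≤ t) (ht : t ≤ H) :
    min q (q + (Z - t)) = min q (q + Z) + (min q (q + (Z - H)) - min q (q + Z)) / H * t +
    min ((1 - max 0 (min H Z) / H) * t) (max 0 (min H Z) / H * (H - t)) := by
  rcases le_total Z 0 with h1 | h1
  · rw [min_eq_right (by linarith : Z ≤ H), max_eq_left h1, min_eq_right (by linarith : q + Z ≤ q),
      min_eq_right (by linarith : q + (Z - H) ≤ q), min_eq_right (by linarith : q + (Z - t) ≤ q)]
    have e3 : (q + (Z - H) - (q + Z)) / H * t = - t := by field_simp; ring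
    have e4 : min ((1 - 0 / H) * t) (0 / H * (H - t)) = 0 := by simp [h0]
    rw [e3, e4]
    ring
  · rcases le_total Z H with h2 | h2
    · rw [min_eq_right h2, max_eq_right h1, min_eq_left (by linarith : q ≤ q + Z),
        min_eq_right (by linarith : q + (Z - H) ≤ q)]
      have e1 : (1 - Z / H) * t = t - Z * t / H := by field_simp
      have e2 : Z / H * (H - t) = Z - Z * t / H := by field_simp
      have e3 : (q + (Z - H) - q) / H * t = Z * t / H - t := by field_simp; ring
      rw [e1, e2, e3]
      rcases le_total t Z with h3 | h3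
      · rw [min_eq_left (by linarith : q ≤ q + (Z - t)), min_eq_left (by linarith)]
        ring
      · rw [min_eq_right (by linarith : q + (Z - t) ≤ q), min_eq_right (by linarith)]
        ring
    · rw [min_eq_left h2, min_eq_left (by linarith : q ≤ q + Z), max_eq_right hH.le,
        min_eq_left (by linarith : q ≤ q + (Z - H)), min_eq_left (by linarith : q ≤ q + (Z - t))]
      have e1 : (1 - H / H) * t = 0 := by field_simp; ring
      have e2 : H / H * (H - t) = H - t := by field_simp
      rw [e1, e2, min_eq_left (by linarith)]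
      simp

theorem bend : S_Bend := by
  intro M q d y0 H t hH h0 ht
  have h1 := B1 (X := M - y0) hH h0 ht
  have h2 := B2 (Z := d - q - y0) (q := q) hH h0 ht
  have e1 : M - (y0 + H) = M - y0 - H := by ring
  have e2 : M - (y0 + t) = M - y0 - t := by ring
  have e3 : d - (y0 + t) = q + (d - q - y0 - t) := by ring
  have e4 : d - y0 = q + (d - q - y0) := by ring
  have e5 : d - (y0 + H) = q + (d - q - y0 - H) := by ring
  rw [e1, e2, e3, e4, e5]
  exact ⟨h1, h2⟩

theorem areaBend : S_Area ∧ S_Bend := ⟨area, bend⟩

end Pool.Agent.Q274.WR
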