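import Pool.Agent.H200W.Stm2

/-! # Project WR: jobs RT, FAT -/

set_option autoImplicit false

namespace Pool.Agent.Q274.WR

open Finset Pool.Agent.TH176.Nag Pool.Agent.TH603.Sur Pool.Agent.TH2.NU Pool.Agent.TH641.UM
open Pool.Agent.Y205.FW Pool.Agent.Y205.MD Pool.Agent.H200W

theorem rtS : S_RTS := by
  intro hSq hAp h u b ρ hh hρ hb L hL hsum
  have hρ0 : (0:ℝ) < ρ := by linarith
  refine hSq hρ hh hb ?_
  have e : (2 * b - 1) ^ 2 / (4 * ρ * h) = (2 * b - 1) ^ 2 / (4 * ρ * h ^ 2) * h := by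
    field_simp
  rw [e]
  refine hAp (u := u) hh L hL (hsum.trans ?_)
  have e2 : (2 * b - 1) ^ 2 / (4 * ρ * h ^ 2) * h ^ 2 = (2 * b - 1) ^ 2 / (4 * ρ) := by
    field_simp
  rw [e2, ← sub_div, div_le_div_iff₀ hρ0 (by linarith)]
  nlinarith

theorem rtE : S_RTE := by
  intro hSq hAp h u b ρ hh hρ hb L hL hsum
  have hρ0 : (0:ℝ) < ρ := by linarith
  have hb0 : 0 < b := by nlinarith [mul_pos hρ0 hh]
  refine hSq hρ hh hb ?_
  have e : b ^ 2 / (ρ * h) = b ^ 2 / (ρ * h ^ 2) * h := by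
    field_simp
  rw [e]
  refine hAp (u := u) hh (by positivity) L hL (le_trans (le_of_eq ?_) hsum)
  field_simp

theorem rt : S_RTS ∧ S_RTE := ⟨rtS, rtE⟩

theorem fatS : S_FatS := by
  intro hD hT hR h u B s H hh hH hs hB L hL hsum
  have hH0 : 0 < H := by linarith
  have hsH : 0 ≤ s * H := mul_nonneg hs hH0.le
  refine hD hH0 hs (by linarith) (hT hH0 (by linarith) (by nlinarith) ?_)
  have e0 : 2 * (B + H) - (s + 2) * H - 1 = 2 * B - s * H - 1 := by ring
  rw [e0]
  set σ : ℝ := 4 * (2 * B - s * H - 1) / H with hσ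
  have hσH : σ * H = 4 * (2 * B - s * H - 1) := by rw [hσ]; field_simp
  have h8 : 8 ≤ σ := by
    rw [hσ, le_div_iff₀ hH0]; linarith
  refine hR (h := h) (u := u) (by linarith) (by linarith) ?_ L hL (hsum.trans ?_)
  · have : σ * (4 * h + 1) ≤ σ * H := mul_le_mul_of_nonneg_left (by linarith) (by linarith)
    nlinarith
  · have e1 : (σ * (H / 2)) ^ 2 / σ - σ * (H / 2) / σ = σ * H * H / 4 - H / 2 := by
      have : σ ≠ 0 := by linarith
      field_simp
      ring
    rw [e1, hσH]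
    nlinarith

theorem fatE : S_FatE := by
  intro hD hT hR h u B s H hh hH hs hB L hL hsum
  have hH0 : 0 < H := by linarith
  have hsH : 0 ≤ s * H := mul_nonneg hs hH0.le
  refine hD hH0 hs (by linarith) (hT hH0 (by linarith) (by nlinarith) ?_)
  have e0 : 2 * (B + H) - (s + 2) * H = 2 * B - s * H := by ring
  rw [e0]
  set σ : ℝ := 4 * (2 * B - s * H) / H with hσ
  have hσH : σ * H = 4 * (2 * B - s * H) := by rw [hσ]; field_simp
  have h8 : 8 ≤ σ := by
    rw [hσ, le_div_iff₀ hH0]; linarith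
  refine hR (h := h) (u := u) (by linarith) (by linarith) ?_ L hL (le_trans ?_ hsum)
  · nlinarith
  · have e1 : (σ * (H / 2)) ^ 2 / σ = σ * H * H / 4 := by
      have : σ ≠ 0 := by linarith
      field_simp
      ring
    rw [e1, hσH]
    nlinarith

theorem fat : S_FatS ∧ S_FatE := ⟨fatS, fatE⟩

end Pool.Agent.Q274.WR
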