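import Pool.Agent.H200W.Stm2

/-! # Project WR: job ROWSE -/

set_option autoImplicit false

namespace Pool.Agent.Q274.WR

open Finset Pool.Agent.TH176.Nag Pool.Agent.TH603.Sur Pool.Agent.TH2.NU Pool.Agent.TH641.UM
open Pool.Agent.Y205.FW Pool.Agent.Y205.MD Pool.Agent.H200W

theorem rowsE : S_RowsE := by
  intro N a b hN hb
  have h := Emp_rows (fun _ : Fin N => a) 0
  refine (EmpM_iff (w := fun _ : Fin N => a)
    (by rw [ms_fin, Multiset.nsmul_singleton]) _).2 (Emp.mono h ?_)
  rintro ⟨x, y⟩ ⟨h1, h2, h3⟩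
  simp only at h1 h2 h3
  refine ⟨h2, h1, ?_⟩
  simp only [sum_const, card_univ, Fintype.card_fin, smul_eq_mul, zero_add]
  obtain ⟨n, rfl⟩ := Int.eq_ofNat_of_zero_le h2
  simp only [Int.toNat_natCast]
  have h4 : (x : ℝ) + N * (n : ℝ) < N * a := by
    have : (x : ℝ) + N * (((n : ℕ) : ℤ) : ℝ) ≤ b := h3
    push_cast at this
    linarith
  have h5 : x + N * (n : ℤ) < N * a := by exact_mod_cast h4
  by_cases hna : n ≤ a
  · push_cast [Nat.cast_sub hna]
    linarith
  · exfalso
    have : (N : ℤ) * a ≤ N * n := by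
      apply mul_le_mul_of_nonneg_left _ (by positivity)
      exact_mod_cast (not_le.1 hna).le
    linarith

end Pool.Agent.Q274.WR
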