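import Pool.Agent.H200W.Stm2

/-! # Project WR: jobs SQ, TRAP, ROWSE -/

set_option autoImplicit false

namespace Pool.Agent.Q274.WR

open Finset Pool.Agent.TH176.Nag Pool.Agent.TH603.Sur Pool.Agent.TH2.NU Pool.Agent.TH641.UM
open Pool.Agent.Y205.FW Pool.Agent.Y205.MD Pool.Agent.H200W

theorem sqS : S_SqS := by
  intro hN hK M b ρ η hρ hη hb h
  have hρ0 : (0:ℝ) < ρ := by linarith
  have hA : 0 < 2 * b - 1 := by nlinarith [mul_pos hρ0 hη]
  have hb0 : 0 < b := by linarith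
  set A : ℝ := 2 * b - 1 with hAdef
  set κ : ℝ := A / η - 4 * ρ with hκdef
  have hκ : 0 < κ := by
    rw [hκdef, sub_pos, lt_div_iff₀ hη]
    linarith
  have hfl1 : (⌊κ⌋ : ℝ) ≤ κ := Int.floor_le κ
  have hfl2 : κ < ⌊κ⌋ + 1 := Int.lt_floor_add_one κ
  set K : ℤ := ⌊κ⌋ + 1 with hKdef
  have hKr : (K : ℝ) = ⌊κ⌋ + 1 := by rw [hKdef]; push_cast; ring
  set y : ℝ := (K - κ) / (4 * ρ) with hydef
  have h4ρ : (0:ℝ) < 4 * ρ := by linarith
  have hy0 : 0 < y := by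
    apply div_pos _ h4ρ
    rw [hKr]; linarith
  have hy1 : y < 1 := by
    rw [hydef, div_lt_one h4ρ, hKr]
    linarith
  set h1 : ℝ := A / (4 * ρ) with hh1
  have hh1pos : 0 < h1 := div_pos hA h4ρ
  -- height
  set h0 : ℝ := b / ρ + 1 with hh0
  have hbρ : 0 < b / ρ := div_pos hb0 hρ0
  have hh0pos : 0 < h0 := by linarith
  have hle : h1 ≤ h0 / 2 := by
    rw [hh1, hh0, div_le_iff₀ h4ρ]
    have : (b / ρ + 1) / 2 * (4 * ρ) = 2 * b + 2 * ρ := by field_simp; ring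
    rw [this]; linarith
  have key : SurM M (WO (4 * ρ * h1) (4 * ρ) y (h0 / 2)) := by
    refine hK K hh1pos hle h4ρ hκ hy0.le hy1.le ?_ ?_
    · rw [hydef]; field_simp; ring
    · have e1 : 4 * ρ + κ = A / η := by rw [hκdef]; ring
      rw [e1]
      have e2 : A / η * h1 = A ^ 2 / (4 * ρ * η) := by
        rw [hh1]; field_simp
      have e3 : (A / η) ^ 2 / (4 * ρ) = A ^ 2 / (4 * ρ * η ^ 2) := by
        field_simp
      rw [e2, e3]
      exact h
  have e4 : 4 * ρ * h1 = 2 * b - 1 := by rw [hh1, mul_div_cancel₀ _ h4ρ.ne']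
  rw [e4] at key
  have h2 := hN hh0pos hρ hy0 hy1 key
  refine Sur.mono h2 ?_
  intro p hp
  exact ⟨hp.1, hp.2.1, hp.2.2.2⟩

theorem sqE : S_SqE := by
  intro hN hK M b ρ η hρ hη hb h
  have hρ0 : (0:ℝ) < ρ := by linarith
  have hb0 : 0 < b := by nlinarith [mul_pos hρ0 hη]
  set κ : ℝ := 2 * b / η - 4 * ρ with hκdef
  have hκ : 0 < κ := by
    rw [hκdef, sub_pos, lt_div_iff₀ hη]
    linarith
  have hfl1 : (⌊κ⌋ : ℝ) ≤ κ := Int.floor_le κ
  have hfl2 : κ < ⌊κ⌋ + 1 := Int.lt_floor_add_one κ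
  set K : ℤ := ⌊κ⌋ + 1 with hKdef
  have hKr : (K : ℝ) = ⌊κ⌋ + 1 := by rw [hKdef]; push_cast; ring
  set y : ℝ := (K - κ) / (4 * ρ) with hydef
  have h4ρ : (0:ℝ) < 4 * ρ := by linarith
  have hy0 : 0 < y := by
    apply div_pos _ h4ρ
    rw [hKr]; linarith
  have hy1 : y < 1 := by
    rw [hydef, div_lt_one h4ρ, hKr]
    linarith
  set h1 : ℝ := b / (2 * ρ) with hh1
  have hh1pos : 0 < h1 := div_pos hb0 (by linarith)
  set h0 : ℝ := b / ρ + 1 with hh0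
  have hbρ : 0 < b / ρ := div_pos hb0 hρ0
  have hh0pos : 0 < h0 := by linarith
  have key : EmpM M (WC (4 * ρ * h1) (4 * ρ) y (h0 / 2)) := by
    refine hK K hh1pos h4ρ hκ hy0.le hy1.le ?_ ?_
    · rw [hydef]; field_simp; ring
    · have e1 : 4 * ρ + κ = 2 * b / η := by rw [hκdef]; ring
      rw [e1]
      have e2 : 2 * b / η * h1 = b ^ 2 / (ρ * η) := by
        rw [hh1]; field_simp
      have e3 : (2 * b / η) ^ 2 / (4 * ρ) = b ^ 2 / (ρ * η ^ 2) := by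
        field_simp; ring
      rw [e2, e3]
      exact h
  have e4 : 4 * ρ * h1 = 2 * b := by rw [hh1]; field_simp; ring
  rw [e4] at key
  have h2 := hN hb0.le hh0pos hρ hy0 hy1 key
  refine EmpM.mono_set h2 ?_
  intro p hp
  refine ⟨hp.1, hp.2.1, ?_, hp.2.2⟩
  have h3 : (0:ℝ) ≤ p.1 := by exact_mod_cast hp.1
  have h4 : ρ * p.2 ≤ b := by linarith [hp.2.2]
  have h5 : (p.2 : ℝ) ≤ b / ρ := by rw [le_div_iff₀ hρ0]; linarith
  linarith

theorem sq : S_SqS ∧ S_SqE := ⟨sqS, sqE⟩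

theorem trapS : S_TrapS := by
  intro hN hK M B s h hh hs hB hyp
  have hs0 : (0:ℝ) < 4 * s := by linarith
  set θ : ℝ := (4 * B - 2 - 4 * s * h) / h with hθdef
  have hθ : 0 ≤ θ := div_nonneg (by nlinarith) hh.le
  have hfl1 : (⌊θ⌋ : ℝ) ≤ θ := Int.floor_le θ
  have hfl2 : θ < ⌊θ⌋ + 1 := Int.lt_floor_add_one θ
  set K : ℤ := ⌊θ⌋ + 1 with hKdef
  have hKr : (K : ℝ) = ⌊θ⌋ + 1 := by rw [hKdef]; push_cast; ring
  set y : ℝ := (K - θ) / (4 * s) with hydef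
  have hy0 : 0 < y := by
    apply div_pos _ hs0
    rw [hKr]; linarith
  have hy1 : y < 1 := by
    rw [hydef, div_lt_one hs0, hKr]
    linarith
  refine hN hh hs hy0 hy1 ?_
  have hθh : θ * h = 4 * B - 2 - 4 * s * h := by rw [hθdef]; field_simp
  refine hK K (by linarith) hs0 hθ hy0.le hy1.le ?_ ?_ ?_
  · rw [hydef]; field_simp; ring
  · have : θ * (h / 2) = (4 * B - 2 - 4 * s * h) / 2 := by rw [← hθh]; ring
    rw [add_mul, this]; ring
  · have e1 : 4 * s + 2 * θ = 4 * (2 * B - s * h - 1) / h := by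
      rw [hθdef]; field_simp; ring
    have e2 : 2 * B - 1 + θ * (h / 2) = 4 * (2 * B - s * h - 1) / h * (h / 2) := by
      rw [hθdef]; field_simp; ring
    rw [e1, e2]
    exact hyp

theorem trapE : S_TrapE := by
  intro hN hK M B s h hh hs hB hyp
  have hs0 : (0:ℝ) < 4 * s := by linarith
  have hB0 : 0 ≤ B := by nlinarith [mul_pos (by linarith : (0:ℝ) < s) hh]
  set θ : ℝ := (4 * B - 4 * s * h) / h with hθdef
  have hθ : 0 ≤ θ := div_nonneg (by nlinarith) hh.le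
  have hfl1 : (⌊θ⌋ : ℝ) ≤ θ := Int.floor_le θ
  have hfl2 : θ < ⌊θ⌋ + 1 := Int.lt_floor_add_one θ
  set K : ℤ := ⌊θ⌋ + 1 with hKdef
  have hKr : (K : ℝ) = ⌊θ⌋ + 1 := by rw [hKdef]; push_cast; ring
  set y : ℝ := (K - θ) / (4 * s) with hydef
  have hy0 : 0 < y := by
    apply div_pos _ hs0
    rw [hKr]; linarith
  have hy1 : y < 1 := by
    rw [hydef, div_lt_one hs0, hKr]
    linarith
  refine hN hB0 hh hs hy0 hy1 ?_
  have hθh : θ * h = 4 * B - 4 * s * h := by rw [hθdef]; field_simp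
  refine hK K (by linarith) hs0 hθ hy0.le hy1.le ?_ ?_ ?_
  · rw [hydef]; field_simp; ring
  · have : θ * (h / 2) = (4 * B - 4 * s * h) / 2 := by rw [← hθh]; ring
    rw [add_mul, this]; ring
  · have e1 : 4 * s + 2 * θ = 4 * (2 * B - s * h) / h := by
      rw [hθdef]; field_simp; ring
    have e2 : 2 * B + θ * (h / 2) = 4 * (2 * B - s * h) / h * (h / 2) := by
      rw [hθdef]; field_simp; ring
    rw [e1, e2]
    exact hyp

theorem trap : S_TrapS ∧ S_TrapE := ⟨trapS, trapE⟩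

end Pool.Agent.Q274.WR
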